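import Mathlib
import Pool.Agent.PDX.Stmts

/-!
# PDX, row MT1: two sets which intersect give a matching
-/

set_option autoImplicit false

namespace Pool.Agent.PDX.H60

open Pool.Agent.PDN Pool.Agent.PDM

/-- the positions used by the matching -/
def Sel (M : ℕ) (i0 : Fin M) (p : Pos M) : Prop :=
  if p.1 = i0 then p.2 ≠ 1 ∧ p.2 ≠ 3 else p.2 ≠ 4 ∧ p.2 ≠ 5 ∧ p.2 ≠ 6

instance (M : ℕ) (i0 : Fin M) : DecidablePred (Sel M i0) := fun p => by
  unfold Sel
  infer_instance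

theorem card_sel (M : ℕ) (i0 : Fin M) : (Finset.univ.filter (Sel M i0)).card = 4 * M + 1 := by
  rw [Finset.card_filter, Fintype.sum_prod_type]
  have h : ∀ i : Fin M, ∑ a : Fin 7, (if Sel M i0 (i, a) then 1 else 0) =
      4 + (if i = i0 then 1 else 0) := by
    intro i
    by_cases hi : i = i0
    · simp only [Sel, hi, if_true]
      decide
    · simp only [Sel, hi, if_false]
      decide
  rw [Finset.sum_congr rfl fun i _ => h i, Finset.sum_add_distrib, Finset.sum_const,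
    Finset.sum_ite_eq' Finset.univ i0, if_pos (Finset.mem_univ _), Finset.card_univ,
    Fintype.card_fin, smul_eq_mul]
  ring

theorem blk1 (M : ℕ) (x y : Finset (Fin M)) (p : Pos M) :
    (c1 M x y p = 4 * M ∧ p.2 = 4) ∨
      (c1 M x y p < 4 * M ∧ c1 M x y p / 4 = (p.1 : ℕ) ∧ p.2 ≠ 4) := by
  obtain ⟨i, a⟩ := p
  have := i.isLt
  fin_cases a <;> simp only [c1] <;> simp <;> (try split_ifs) <;> omega

theorem blk2 (M : ℕ) (p : Pos M) :
    (c2 M p = 4 * M ∧ p.2 = 6) ∨ (c2 M p < 4 * M ∧ c2 M p / 4 = (p.1 : ℕ) ∧ p.2 ≠ 6) := by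
  obtain ⟨i, a⟩ := p
  have := i.isLt
  fin_cases a <;> simp only [c2] <;> simp <;> omega

theorem blk3 (M : ℕ) (p : Pos M) :
    (c3 M p = 4 * M ∧ p.2 = 5) ∨ (c3 M p < 4 * M ∧ c3 M p / 4 = (p.1 : ℕ) ∧ p.2 ≠ 5) := by
  obtain ⟨i, a⟩ := p
  have := i.isLt
  fin_cases a <;> simp only [c3] <;> simp <;> omega

theorem loc1 (M : ℕ) (x y : Finset (Fin M)) (i0 : Fin M) (hx : i0 ∈ x) (hy : i0 ∈ y) (i : Fin M)
    (a b : Fin 7) (ha : Sel M i0 (i, a)) (hb : Sel M i0 (i, b))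
    (h : c1 M x y (i, a) = c1 M x y (i, b)) : a = b := by
  have hlt := i.isLt
  by_cases hi : i = i0
  · subst hi
    simp only [Sel, if_true] at ha hb
    fin_cases a <;> fin_cases b <;> simp [c1, hx, hy] at h ha hb ⊢ <;> omega
  · simp only [Sel, hi, if_false] at ha hb
    by_cases h1 : i ∈ x <;> by_cases h2 : i ∈ y <;>
      fin_cases a <;> fin_cases b <;> simp [c1, h1, h2] at h ha hb ⊢ <;> omega

theorem loc2 (M : ℕ) (i0 : Fin M) (i : Fin M)
    (a b : Fin 7) (ha : Sel M i0 (i, a)) (hb : Sel M i0 (i, b))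
    (h : c2 M (i, a) = c2 M (i, b)) : a = b := by
  have hlt := i.isLt
  by_cases hi : i = i0
  · subst hi
    simp only [Sel, if_true] at ha hb
    fin_cases a <;> fin_cases b <;> simp [c2] at h ha hb ⊢ <;> omega
  · simp only [Sel, hi, if_false] at ha hb
    fin_cases a <;> fin_cases b <;> simp [c2] at h ha hb ⊢ <;> omega

theorem loc3 (M : ℕ) (i0 : Fin M) (i : Fin M)
    (a b : Fin 7) (ha : Sel M i0 (i, a)) (hb : Sel M i0 (i, b))
    (h : c3 M (i, a) = c3 M (i, b)) : a = b := by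
  have hlt := i.isLt
  by_cases hi : i = i0
  · subst hi
    simp only [Sel, if_true] at ha hb
    fin_cases a <;> fin_cases b <;> simp [c3] at h ha hb ⊢ <;> omega
  · simp only [Sel, hi, if_false] at ha hb
    fin_cases a <;> fin_cases b <;> simp [c3] at h ha hb ⊢ <;> omega

theorem sel_big (M : ℕ) (i0 : Fin M) (p : Pos M) (hp : Sel M i0 p)
    (h : p.2 = 4 ∨ p.2 = 5 ∨ p.2 = 6) : p.1 = i0 := by
  by_contra hi
  simp only [Sel, hi, if_false] at hp
  rcases h with h | h | h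
  · exact hp.1 h
  · exact hp.2.1 h
  · exact hp.2.2 h

/-- a coordinate which is injective on the blocks is injective -/
theorem inj_of (M : ℕ) (i0 : Fin M) (c : Pos M → ℕ) (k : Fin 7) (hk : k = 4 ∨ k = 5 ∨ k = 6)
    (hb : ∀ p, (c p = 4 * M ∧ p.2 = k) ∨ (c p < 4 * M ∧ c p / 4 = (p.1 : ℕ) ∧ p.2 ≠ k))
    (hl : ∀ (i : Fin M) (a b : Fin 7), Sel M i0 (i, a) → Sel M i0 (i, b) → c (i, a) = c (i, b) →
      a = b) (p q : Pos M) (hp : Sel M i0 p) (hq : Sel M i0 q) (h : c p = c q) : p = q := by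
  have h1 : p.1 = q.1 := by
    rcases hb p with ⟨e1, e2⟩ | ⟨e1, e2, _⟩
    · rcases hb q with ⟨e4, e5⟩ | ⟨e4, e5, _⟩
      · rw [sel_big M i0 p hp (e2 ▸ hk), sel_big M i0 q hq (e5 ▸ hk)]
      · omega
    · rcases hb q with ⟨e4, e5⟩ | ⟨e4, e5, _⟩
      · omega
      · exact Fin.ext (by omega)
  obtain ⟨i, a⟩ := p
  obtain ⟨j, b⟩ := q
  simp only at h1
  subst h1
  rw [hl i a b hp hq h]

/-- MT1. -/
theorem mt1 : Mt1Stmt := by
  intro M x y ⟨i0, hx, hy⟩
  have j1 : ∀ p q : Pos M, Sel M i0 p → Sel M i0 q → c1 M x y p = c1 M x y q → p = q :=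
    inj_of M i0 (c1 M x y) 4 (Or.inl rfl) (blk1 M x y) (loc1 M x y i0 hx hy)
  have j2 : ∀ p q : Pos M, Sel M i0 p → Sel M i0 q → c2 M p = c2 M q → p = q :=
    inj_of M i0 (c2 M) 6 (Or.inr (Or.inr rfl)) (blk2 M) (loc2 M i0)
  have j3 : ∀ p q : Pos M, Sel M i0 p → Sel M i0 q → c3 M p = c3 M q → p = q :=
    inj_of M i0 (c3 M) 5 (Or.inr (Or.inl rfl)) (blk3 M) (loc3 M i0)
  have ji : ∀ p q : Pos M, Sel M i0 p → Sel M i0 q → trp M x y p = trp M x y q → p = q := by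
    intro p q hp hq h
    refine j1 p q hp hq ?_
    have h1 := congrArg (fun v => (v.1 : ℕ)) h
    exact h1
  refine ⟨(Finset.univ.filter (Sel M i0)).image (trp M x y), ?_, ?_, ?_⟩
  · exact Finset.image_subset_image (Finset.subset_univ _)
  · rw [Finset.card_image_of_injOn, card_sel]
    intro p hp q hq h
    exact ji p q (Finset.mem_filter.mp hp).2 (Finset.mem_filter.mp hq).2 h
  · intro u hu v hv huv
    obtain ⟨p, hp, rfl⟩ := Finset.mem_image.mp hu
    obtain ⟨q, hq, rfl⟩ := Finset.mem_image.mp hv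
    have hp' := (Finset.mem_filter.mp hp).2
    have hq' := (Finset.mem_filter.mp hq).2
    have hpq : p ≠ q := fun h => huv (by rw [h])
    refine ⟨fun h => hpq (j1 p q hp' hq' ?_), fun h => hpq (j2 p q hp' hq' ?_),
      fun h => hpq (j3 p q hp' hq' ?_)⟩
    · exact congrArg Fin.val h
    · exact congrArg Fin.val h
    · exact congrArg Fin.val h

end Pool.Agent.PDX.H60
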