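import Mathlib
import Pool.Agent.PDX.Stmts

/-!
# PDX, row MT2: a matching gives a common element
-/

set_option autoImplicit false

namespace Pool.Agent.PDX.H60.Mt2

open Pool.Agent.PDN Pool.Agent.PDM

/-- an injective coordinate on a set of full size is onto -/
theorem onto {t : ℕ} {T : Type} (S : Finset T) (hS : S.card = t) (f : T → Fin t)
    (hf : ∀ p ∈ S, ∀ q ∈ S, p ≠ q → f p ≠ f q) (v : Fin t) : ∃ p ∈ S, f p = v := by
  classical
  have h1 : (S.image f).card = t := by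
    rw [Finset.card_image_of_injOn, hS]
    intro p hp q hq h
    by_contra hne
    exact hf p hp q hq hne h
  have h2 : S.image f = Finset.univ := by
    apply Finset.eq_univ_of_card
    rw [h1, Fintype.card_fin]
  have h3 : v ∈ S.image f := by
    rw [h2]
    exact Finset.mem_univ v
  exact Finset.mem_image.mp h3

/-- MT2. -/
theorem mt2 : Mt2Stmt := by
  intro M x y ⟨S, hS, hc, hd⟩
  have o1 : ∀ v < 4 * M + 1, ∃ p : Pos M, trp M x y p ∈ S ∧ c1 M x y p = v := by
    intro v hv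
    obtain ⟨u, hu, h⟩ := onto S hc (fun u => u.1) (fun p hp q hq hne => (hd p hp q hq hne).1)
      ⟨v, hv⟩
    obtain ⟨p, _, rfl⟩ := Finset.mem_image.mp (hS hu)
    exact ⟨p, hu, congrArg Fin.val h⟩
  have o2 : ∀ v < 4 * M + 1, ∃ p : Pos M, trp M x y p ∈ S ∧ c2 M p = v := by
    intro v hv
    obtain ⟨u, hu, h⟩ := onto S hc (fun u => u.2.1) (fun p hp q hq hne => (hd p hp q hq hne).2.1)
      ⟨v, hv⟩
    obtain ⟨p, _, rfl⟩ := Finset.mem_image.mp (hS hu)
    exact ⟨p, hu, congrArg Fin.val h⟩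
  have o3 : ∀ v < 4 * M + 1, ∃ p : Pos M, trp M x y p ∈ S ∧ c3 M p = v := by
    intro v hv
    obtain ⟨u, hu, h⟩ := onto S hc (fun u => u.2.2) (fun p hp q hq hne => (hd p hp q hq hne).2.2)
      ⟨v, hv⟩
    obtain ⟨p, _, rfl⟩ := Finset.mem_image.mp (hS hu)
    exact ⟨p, hu, congrArg Fin.val h⟩
  have hval : ∀ p q : Pos M, trp M x y p = trp M x y q → c2 M p = c2 M q ∧ c3 M p = c3 M q := by
    intro p q h
    exact ⟨congrArg (fun v => (v.2.1 : ℕ)) h, congrArg (fun v => (v.2.2 : ℕ)) h⟩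
  have u1 : ∀ p q : Pos M, trp M x y p ∈ S → trp M x y q ∈ S → c1 M x y p = c1 M x y q →
      c2 M p = c2 M q ∧ c3 M p = c3 M q := by
    intro p q hp hq h
    by_cases hne : trp M x y p = trp M x y q
    · exact hval p q hne
    · exact absurd (Fin.ext h) (hd _ hp _ hq hne).1
  have u2 : ∀ p q : Pos M, trp M x y p ∈ S → trp M x y q ∈ S → c2 M p = c2 M q →
      c2 M p = c2 M q ∧ c3 M p = c3 M q := by
    intro p q hp hq h
    by_cases hne : trp M x y p = trp M x y q
    · exact hval p q hne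
    · exact absurd (Fin.ext h) (hd _ hp _ hq hne).2.1
  -- the token
  obtain ⟨⟨i, a⟩, hp, h1⟩ := o1 (4 * M) (by omega)
  have hi := i.isLt
  have ha : a = 4 := by
    by_contra ha
    have : c1 M x y (i, a) < 4 * M := by
      fin_cases a <;> simp [c1] at ha ⊢ <;> (try split_ifs) <;> omega
    omega
  subst ha
  -- third coordinate 4 i + 1
  have s6 : trp M x y (i, 6) ∈ S := by
    obtain ⟨⟨j, b⟩, hq, h3⟩ := o3 (4 * (i : ℕ) + 1) (by omega)
    have hj := j.isLt
    have hb : j = i ∧ (b = 1 ∨ b = 6) := by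
      fin_cases b <;> simp [c3, Fin.ext_iff] at h3 ⊢ <;> omega
    obtain ⟨rfl, hb | hb⟩ := hb
    · subst hb
      have h4 := (u2 (j, 1) (j, 4) hq hp (by simp [c2])).2
      simp [c3] at h4
    · subst hb
      exact hq
  -- second coordinate 4 i + 3
  have s5 : trp M x y (i, 5) ∈ S := by
    obtain ⟨⟨j, b⟩, hq, h2⟩ := o2 (4 * (i : ℕ) + 3) (by omega)
    have hj := j.isLt
    have hb : j = i ∧ (b = 3 ∨ b = 5) := by
      fin_cases b <;> simp [c2, Fin.ext_iff] at h2 ⊢ <;> omega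
    obtain ⟨rfl, hb | hb⟩ := hb
    · subst hb
      by_cases hne : trp M x y (j, 3) = trp M x y (j, 4)
      · have h4 := (hval _ _ hne).1
        simp [c2] at h4
      · have h5 : c3 M (j, 3) = c3 M (j, 4) := by simp [c3]
        exact absurd (Fin.ext h5) (hd _ hq _ hp hne).2.2
    · subst hb
      exact hq
  refine ⟨i, ?_, ?_⟩
  · by_contra hx
    obtain ⟨⟨j, b⟩, hq, h2⟩ := o2 (4 * (i : ℕ)) (by omega)
    have hj := j.isLt
    have hb : j = i ∧ b = 0 := by
      fin_cases b <;> simp [c2, Fin.ext_iff] at h2 ⊢ <;> omega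
    obtain ⟨rfl, rfl⟩ := hb
    have h4 := (u1 (j, 0) (j, 5) hq s5 (by simp [c1, hx])).1
    simp [c2] at h4
  · by_contra hy
    obtain ⟨⟨j, b⟩, hq, h2⟩ := o2 (4 * (i : ℕ) + 2) (by omega)
    have hj := j.isLt
    have hb : j = i ∧ b = 2 := by
      fin_cases b <;> simp [c2, Fin.ext_iff] at h2 ⊢ <;> omega
    obtain ⟨rfl, rfl⟩ := hb
    have h4 := (u1 (j, 2) (j, 6) hq s6 (by simp [c1, hy])).1
    simp [c2] at h4
    omega

end Pool.Agent.PDX.H60.Mt2
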